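import Pool.Agent.H604.MT.StmV
import Pool.Agent.H183.Par.BRUN

/-!
# Brun-Hooley weights in dimension `κ` (task BHK)
-/

set_option autoImplicit false

namespace Pool.Agent.H524.MT

open Polynomial
open scoped Classical
open Pool.Agent.H694.Typ (Mn PU mem_PU wt wt_nonneg wt_le_half sum_deg_le)
open Pool.Agent.H183.Par (UU VV UU_abs VV_abs UU_sum VV_sum up_one low_one supp level exists_b z_le
  bonf_even ee EE ZZ ZZ_le up_prod x_prod jx_lt jx_le lt_jx exp_small)

namespace Bhk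

section
variable {K : Type} [Field K] [Fintype K]

theorem xx_eq (P : K[X]) (κ : ℕ) : (κ : ℝ) / (Fintype.card K : ℝ) ^ P.natDegree =
    κ * wt K P.natDegree := by
  unfold wt
  rw [div_eq_mul_inv]

theorem block (κ z y : ℕ) (g : K[X] → ℝ) (hg : ∀ P ∈ PU K z, g P ≤ κ * wt K P.natDegree) :
    ∑ P ∈ (PU K z).filter (fun P => y < 2 * P.natDegree ∧ P.natDegree ≤ y), g P ≤ 2 * κ := by
  have hκ : (0 : ℝ) ≤ κ := Nat.cast_nonneg κ
  rcases Nat.eq_zero_or_pos y with hy | hy
  · rw [Finset.filter_false_of_mem, Finset.sum_empty]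
    · positivity
    · intro P _ h
      omega
  have hy0 : (0 : ℝ) < y := by exact_mod_cast hy
  calc ∑ P ∈ (PU K z).filter (fun P => y < 2 * P.natDegree ∧ P.natDegree ≤ y), g P
      ≤ ∑ P ∈ (PU K z).filter (fun P => y < 2 * P.natDegree ∧ P.natDegree ≤ y),
          2 * κ / (y : ℝ) * ((P.natDegree : ℝ) * wt K P.natDegree) := by
        refine Finset.sum_le_sum fun P hP => ?_
        rw [Finset.mem_filter] at hP
        refine (hg P hP.1).trans ?_
        have h1 : (y : ℝ) ≤ 2 * P.natDegree := by exact_mod_cast hP.2.1.le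
        have h2 := wt_nonneg (k := K) P.natDegree
        rw [div_mul_eq_mul_div, le_div_iff₀ hy0]
        have h3 := mul_le_mul_of_nonneg_left h1 (mul_nonneg hκ h2)
        calc (κ : ℝ) * wt K P.natDegree * y ≤ κ * wt K P.natDegree * (2 * P.natDegree) := h3
          _ = 2 * κ * ((P.natDegree : ℝ) * wt K P.natDegree) := by ring
    _ ≤ ∑ P ∈ PU K y, 2 * κ / (y : ℝ) * ((P.natDegree : ℝ) * wt K P.natDegree) := by
        refine Finset.sum_le_sum_of_subset_of_nonneg ?_ ?_
        · intro P hP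
          rw [Finset.mem_filter] at hP
          exact mem_PU.2 ⟨(mem_PU.1 hP.1).1, (mem_PU.1 hP.1).2.1, hP.2.2⟩
        · intro P _ _
          have h2 := wt_nonneg (k := K) P.natDegree
          positivity
    _ = 2 * κ / (y : ℝ) * ∑ P ∈ PU K y, ((P.natDegree : ℝ) * wt K P.natDegree) := by
        rw [Finset.mul_sum]
    _ ≤ 2 * κ / (y : ℝ) * y := by
        refine mul_le_mul_of_nonneg_left (sum_deg_le y) (by positivity)
    _ = 2 * κ := by field_simp

end

theorem exp8 : Real.exp (1 / 8) ≤ 2 := by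
  have h := exp_small (η := 1 / 8) (by norm_num) (by norm_num)
  linarith

theorem VV_empty {ι : Type} (Q : Finset ι) (jx : ι → ℕ) (r : ℕ → ℕ) (J : ℕ) :
    VV Q jx r J ∅ = 1 := by
  unfold VV
  rw [if_pos (Finset.empty_subset _)]
  have h1 : ∏ j ∈ Finset.range J, Pool.Agent.H183.Par.u (r j)
      ((∅ : Finset ι).filter (fun P => jx P = j)) = 1 := by
    refine Finset.prod_eq_one fun j _ => ?_
    rw [Finset.filter_empty]
    unfold Pool.Agent.H183.Par.u
    rw [Finset.card_empty, if_pos (Nat.zero_le _), pow_zero]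
  have h2 : ZZ (fun j => Pool.Agent.H183.Par.u (r j) ((∅ : Finset ι).filter (fun P => jx P = j)))
      (fun j => Pool.Agent.H183.Par.c (r j + 1) ((∅ : Finset ι).filter (fun P => jx P = j))) J =
      0 := by
    unfold ZZ
    refine Finset.sum_eq_zero fun l hl => ?_
    refine Finset.prod_eq_zero hl ?_
    rw [if_pos rfl]
    show Pool.Agent.H183.Par.c (r l + 1) ((∅ : Finset ι).filter (fun P => jx P = l)) = 0
    rw [Finset.filter_empty]
    unfold Pool.Agent.H183.Par.c
    rw [Finset.card_empty, if_neg (by omega)]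
  rw [h1, h2, sub_zero]

theorem UU_empty {ι : Type} (Q : Finset ι) (jx : ι → ℕ) (r : ℕ → ℕ) (J : ℕ) :
    UU Q jx r J ∅ = 1 := by
  unfold UU
  rw [if_pos (Finset.empty_subset _)]
  refine Finset.prod_eq_one fun j _ => ?_
  rw [Finset.filter_empty]
  unfold Pool.Agent.H183.Par.u
  rw [Finset.card_empty, if_pos (Nat.zero_le _), pow_zero]

end Bhk

open Bhk in
/-- **Task BHK.** -/
theorem bhk : S_bhk := by
  intro K _ _ κ
  have hκ : (0 : ℝ) ≤ κ := Nat.cast_nonneg κ
  obtain ⟨C, hC⟩ : ∃ C : ℝ, C = 2 * κ + 2 := ⟨_, rfl⟩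
  have hC2 : 2 ≤ C := by rw [hC]; linarith
  have hC0 : 0 < C := by linarith
  obtain ⟨b, hb, hbJ⟩ := exists_b C (1 / 8) (by norm_num)
  refine ⟨2 * b + 6, by omega, fun z hz => ?_⟩
  have hℓ : ∀ P ∈ PU K z, 1 ≤ P.natDegree ∧ P.natDegree ≤ z :=
    fun P hP => ⟨(mem_PU.1 hP).2.1.natDegree_pos, (mem_PU.1 hP).2.2⟩
  have hQ : ∀ P ∈ PU K z, Nat.log 2 (z / P.natDegree) < Nat.log 2 z + 1 :=
    fun P hP => jx_lt (hℓ P hP).1
  have hr : ∀ j : ℕ, Even (b + 2 * j) := fun j => hb.add (even_two_mul j)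
  -- the facts about one density
  have key : ∀ g : K[X] → ℝ, (∀ P ∈ PU K z, 0 ≤ g P ∧
      g P ≤ κ / (Fintype.card K : ℝ) ^ P.natDegree ∧ g P ≤ 1 / 2) →
      ∀ j : ℕ, (0 ≤ ∏ P ∈ (PU K z).filter (fun P => Nat.log 2 (z / P.natDegree) = j), (1 - g P)) ∧
      (∏ P ∈ (PU K z).filter (fun P => Nat.log 2 (z / P.natDegree) = j), (1 - g P) ≤
        EE g (b + 2 * j) ((PU K z).filter (fun P => Nat.log 2 (z / P.natDegree) = j))) ∧
      (EE g (b + 2 * j) ((PU K z).filter (fun P => Nat.log 2 (z / P.natDegree) = j)) ≤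
        ∏ P ∈ (PU K z).filter (fun P => Nat.log 2 (z / P.natDegree) = j), (1 - g P) +
        ee g (b + 2 * j + 1) ((PU K z).filter (fun P => Nat.log 2 (z / P.natDegree) = j))) ∧
      (ee g (b + 2 * j + 1) ((PU K z).filter (fun P => Nat.log 2 (z / P.natDegree) = j)) ≤
        Real.exp (C * C) * (|C| ^ (b + 2 * j + 1) / ((b + 2 * j + 1).factorial : ℝ)) *
          ∏ P ∈ (PU K z).filter (fun P => Nat.log 2 (z / P.natDegree) = j), (1 - g P)) := by
    intro g hg j
    have hw1 : ∀ P ∈ (PU K z).filter (fun P => Nat.log 2 (z / P.natDegree) = j),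
        0 ≤ g P ∧ g P ≤ 1 := fun P hP =>
      ⟨(hg P (Finset.mem_filter.1 hP).1).1, (hg P (Finset.mem_filter.1 hP).1).2.2.trans
        (by norm_num)⟩
    have hbo := bonf_even g ((PU K z).filter (fun P => Nat.log 2 (z / P.natDegree) = j)) hw1 (hr j)
    have hblock : ∑ P ∈ (PU K z).filter (fun P => Nat.log 2 (z / P.natDegree) = j), g P ≤ C := by
      refine le_trans (Finset.sum_le_sum_of_subset_of_nonneg
        (t := (PU K z).filter (fun P => z / 2 ^ j < 2 * P.natDegree ∧ P.natDegree ≤ z / 2 ^ j))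
        ?_ ?_) ((block κ z (z / 2 ^ j) g fun P hP => ?_).trans ?_)
      · intro P hP
        rw [Finset.mem_filter] at hP ⊢
        have h4 := hℓ P hP.1
        have h5 := jx_le h4.1 h4.2
        have h6 := lt_jx (m := z) h4.1
        rw [hP.2] at h5 h6
        refine ⟨hP.1, ?_, ?_⟩
        · rw [Nat.div_lt_iff_lt_mul (by positivity)]
          exact h6
        · rw [Nat.le_div_iff_mul_le (by positivity)]
          exact h5
      · intro P hP _
        exact (hg P (Finset.mem_filter.1 hP).1).1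
      · rw [← xx_eq]
        exact (hg P hP).2.1
      · rw [hC]
        linarith
    refine ⟨Finset.prod_nonneg fun P hP => by linarith [(hw1 P hP).2], hbo.1, hbo.2, ?_⟩
    refine z_le hC0 g _ (fun P hP => ⟨(hw1 P hP).1, ?_⟩) hblock _
    have h1 := (hg P (Finset.mem_filter.1 hP).1).2.2
    have h2 : 1 / C ≤ 1 / 2 := one_div_le_one_div_of_le (by norm_num) hC2
    linarith
  have hprod : ∀ g : K[X] → ℝ, (∀ P ∈ PU K z, 0 ≤ g P ∧
      g P ≤ κ / (Fintype.card K : ℝ) ^ P.natDegree ∧ g P ≤ 1 / 2) →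
      0 ≤ ∏ P ∈ PU K z, (1 - g P) := fun g hg =>
    Finset.prod_nonneg fun P hP => by linarith [(hg P hP).2.2]
  refine ⟨VV (PU K z) (fun P => Nat.log 2 (z / P.natDegree)) (fun j => b + 2 * j)
    (Nat.log 2 z + 1), UU (PU K z) (fun P => Nat.log 2 (z / P.natDegree)) (fun j => b + 2 * j)
    (Nat.log 2 z + 1), ?_, ?_, VV_empty _ _ _ _, UU_empty _ _ _ _, ?_, ?_, ?_, ?_⟩
  · refine ⟨fun T => VV_abs _ _ _ _ _, fun T hT => ?_⟩
    obtain ⟨h1, h2⟩ := supp _ _ _ _ _ (Or.inr hT)
    exact ⟨h1, level (PU K z) (fun P => P.natDegree) z b hℓ T h1 h2⟩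
  · refine ⟨fun T => UU_abs _ _ _ _ _, fun T hT => ?_⟩
    obtain ⟨h1, h2⟩ := supp _ _ _ _ _ (Or.inl hT)
    exact ⟨h1, level (PU K z) (fun P => P.natDegree) z b hℓ T h1 h2⟩
  · intro B hB hne
    refine (low_one (PU K z) _ _ hr _ B hB hQ).trans (le_of_eq ?_)
    rw [if_neg hne.ne_empty]
  · intro B hB
    refine le_trans ?_ (up_one (PU K z) _ _ hr _ B hB hQ)
    split_ifs <;> norm_num
  · intro g hg
    have hk := key g hg
    have hP0 := hprod g hg
    rw [VV_sum (PU K z) _ _ _ g (PU K z) (Finset.Subset.refl _) hQ]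
    have h1 := ZZ_le (fun j => (hk j).1) (fun j => (hk j).2.1)
      (fun j => (by positivity : (0 : ℝ) ≤ Real.exp (C * C) *
        (|C| ^ (b + 2 * j + 1) / ((b + 2 * j + 1).factorial : ℝ))))
      (fun j => (hk j).2.2.2) (Nat.log 2 z + 1)
    have h2 : ∏ P ∈ PU K z, (1 - g P) ≤ ∏ j ∈ Finset.range (Nat.log 2 z + 1),
        EE g (b + 2 * j) ((PU K z).filter (fun P => Nat.log 2 (z / P.natDegree) = j)) := by
      rw [← x_prod _ _ (PU K z) hQ g]
      exact Finset.prod_le_prod (fun j _ => (hk j).1) fun j _ => (hk j).2.1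
    have h3 := hbJ (Nat.log 2 z + 1)
    have hy0 := hP0.trans h2
    have h4 := mul_le_mul_of_nonneg_right h3 hy0
    linarith
  · intro g hg
    have hk := key g hg
    have hP0 := hprod g hg
    rw [UU_sum (PU K z) _ _ _ g (PU K z) (Finset.Subset.refl _) hQ]
    have h1 := up_prod (fun j => (hk j).1) (fun j => (hk j).2.1) (fun j => (hk j).2.2.1)
      (fun j => (hk j).2.2.2) (Nat.log 2 z + 1)
    rw [x_prod _ _ (PU K z) hQ g] at h1
    refine h1.trans (mul_le_mul_of_nonneg_right ?_ hP0)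
    exact (Real.exp_le_exp.2 (hbJ _)).trans exp8

end Pool.Agent.H524.MT
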