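import Pool.Agent.H604.MT.StmV

/-!
# Maynard-Tao over `F_q[X]` (helper524), task EXP: the expansion into residue classes (helper161)
-/

set_option autoImplicit false

namespace Pool.Agent.H524.MT.Exp

open Polynomial Finset
open scoped Classical
open Pool.Agent.H985.KP (PA)
open Pool.Agent.H694.Typ (Mn PU mem_Mn mem_PU)
open Pool.Agent.H524.MT

section algebra

variable {K : Type} [Field K]

theorem exists_monic {z : K[X]} (hz : Irreducible z) :
    ∃ P : K[X], P.Monic ∧ Irreducible P ∧ P ∣ z :=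
  ⟨normalize z, monic_normalize hz.ne_zero, (normalize_associated z).symm.irreducible hz,
    (normalize_associated z).dvd⟩

theorem coprime_of_disjoint {f g : K[X]} (hf : f ≠ 0) (h : Disjoint (PA f) (PA g)) :
    IsCoprime f g := by
  refine isCoprime_of_irreducible_dvd (fun h0 => hf h0.1) (fun z hz h1 h2 => ?_)
  obtain ⟨P, hPm, hPi, hP⟩ := exists_monic hz
  exact Set.disjoint_left.1 h ⟨hPm, hPi, hP.trans h1⟩ ⟨hPm, hPi, hP.trans h2⟩

theorem PA_mul (f g : K[X]) : PA (f * g) = PA f ∪ PA g := by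
  ext P
  constructor
  · rintro ⟨h1, h2, h3⟩
    rcases h2.prime.dvd_or_dvd h3 with h | h
    · exact Or.inl ⟨h1, h2, h⟩
    · exact Or.inr ⟨h1, h2, h⟩
  · rintro (⟨h1, h2, h3⟩ | ⟨h1, h2, h3⟩)
    · exact ⟨h1, h2, h3.mul_right g⟩
    · exact ⟨h1, h2, h3.mul_left f⟩

theorem PA_prod {S : Finset K[X]} (hS : ∀ P ∈ S, P.Monic ∧ Irreducible P) :
    PA (∏ P ∈ S, P) = (S : Set K[X]) := by
  ext P
  constructor
  · rintro ⟨h1, h2, h3⟩
    obtain ⟨P', hP', h⟩ := h2.prime.exists_mem_finset_dvd h3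
    obtain ⟨h4, h5⟩ := hS P' hP'
    have h6 : Associated P P' := h2.associated_of_dvd h5 h
    rw [eq_of_monic_of_associated h1 h4 h6]
    exact hP'
  · intro h
    exact ⟨(hS P h).1, (hS P h).2, dvd_prod_of_mem _ h⟩

theorem crt2 {f g : K[X]} (h : IsCoprime f g) (a b : K[X]) : ∃ y, f ∣ y - a ∧ g ∣ y - b := by
  obtain ⟨s, t, hst⟩ := h
  refine ⟨b * s * f + a * t * g, ⟨b * s - a * s, ?_⟩, ⟨a * t - b * t, ?_⟩⟩
  · linear_combination a * hst
  · linear_combination b * hst

theorem crt3 {M E Q : K[X]} (h1 : IsCoprime M E) (h2 : IsCoprime (M * E) Q) (a c u : K[X]) :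
    ∃ y, M ∣ y - a ∧ E ∣ y - c ∧ Q ∣ y - u := by
  obtain ⟨y1, h3, h4⟩ := crt2 h1 a c
  obtain ⟨y, h5, h6⟩ := crt2 h2 y1 u
  refine ⟨y, ?_, ?_, h6⟩
  · have := dvd_add ((dvd_mul_right M E).trans h5) h3
    rwa [sub_add_sub_cancel] at this
  · have := dvd_add ((dvd_mul_left E M).trans h5) h4
    rwa [sub_add_sub_cancel] at this

theorem crt_spec {M E Q : K[X]} (h1 : IsCoprime M E) (h2 : IsCoprime (M * E) Q) (a c u : K[X]) :
    M ∣ crt M a E c Q u - a ∧ E ∣ crt M a E c Q u - c ∧ Q ∣ crt M a E c Q u - u := by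
  have h := crt3 h1 h2 a c u
  unfold crt
  rw [dif_pos h]
  exact h.choose_spec

/-- three congruences are one congruence -/
theorem dvd_crt {M E Q : K[X]} (h1 : IsCoprime M E) (h2 : IsCoprime (M * E) Q) (a c u b : K[X]) :
    M * E * Q ∣ b - crt M a E c Q u ↔ M ∣ b - a ∧ E ∣ b - c ∧ Q ∣ b - u := by
  obtain ⟨h3, h4, h5⟩ := crt_spec h1 h2 a c u
  constructor
  · intro h
    refine ⟨?_, ?_, ?_⟩
    · have := dvd_add (((dvd_mul_right M E).trans (dvd_mul_right _ Q)).trans h) h3
      rwa [sub_add_sub_cancel] at this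
    · have := dvd_add (((dvd_mul_left E M).trans (dvd_mul_right _ Q)).trans h) h4
      rwa [sub_add_sub_cancel] at this
    · have := dvd_add ((dvd_mul_left Q (M * E)).trans h) h5
      rwa [sub_add_sub_cancel] at this
  · rintro ⟨h6, h7, h8⟩
    refine h2.mul_dvd (h1.mul_dvd ?_ ?_) ?_
    · have := dvd_sub h6 h3
      rwa [sub_sub_sub_cancel_right] at this
    · have := dvd_sub h7 h4
      rwa [sub_sub_sub_cancel_right] at this
    · have := dvd_sub h8 h5
      rwa [sub_sub_sub_cancel_right] at this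

theorem dvd_sub_mod (a : K[X]) (Q : K[X]) : Q ∣ a - a %ₘ Q :=
  ⟨a /ₘ Q, by linear_combination (-1 : K[X]) * modByMonic_add_div a Q⟩

theorem eq_of_deg {Q u v : K[X]} (hu : u.degree < Q.degree) (hv : v.degree < Q.degree)
    (h : Q ∣ u - v) : u = v :=
  sub_eq_zero.1 (eq_zero_of_dvd_of_degree_lt h ((degree_sub_le u v).trans_lt (max_lt hu hv)))

theorem finite_deg [Finite K] (n : ℕ) : {u : K[X] | u.degree < n}.Finite := by
  have h1 : Finite (degreeLT K n) := Finite.of_equiv _ (degreeLTEquiv K n).symm.toEquiv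
  have h2 : {u : K[X] | u.degree < n} = (degreeLT K n : Set K[X]) := by
    ext u
    exact mem_degreeLT.symm
  rw [h2]
  exact Set.toFinite _

theorem finite_cls [Finite K] (Rt : K[X] → K[X] → Prop) (S : Finset K[X]) :
    (cls Rt S).Finite := by
  by_cases h : (∏ P ∈ S, P) = 0
  · refine Set.Finite.subset (Set.finite_empty) ?_
    rintro u ⟨hu, -⟩
    rw [h, degree_zero] at hu
    exact absurd hu not_lt_bot
  · refine (finite_deg (∏ P ∈ S, P).natDegree).subset ?_
    rintro u ⟨hu, -⟩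
    rw [degree_eq_natDegree h] at hu
    exact hu

variable {Rt : K[X] → K[X] → Prop}

theorem Rt_congr (per : ∀ P a u, Rt P (a + P * u) ↔ Rt P a) {P a u : K[X]} (h : P ∣ a - u) :
    Rt P a ↔ Rt P u := by
  obtain ⟨w, hw⟩ := h
  rw [← per P u w, ← hw]
  have : u + (a - u) = a := by ring
  rw [this]

theorem prod_monic {S : Finset K[X]} (hS : ∀ P ∈ S, P.Monic ∧ Irreducible P) :
    (∏ P ∈ S, P).Monic := monic_prod_of_monic _ _ fun P hP => (hS P hP).1

theorem cls_card (per : ∀ P a u, Rt P (a + P * u) ↔ Rt P a) (r : K[X] → ℕ) (S : Finset K[X])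
    (hS : ∀ P ∈ S, P.Monic ∧ Irreducible P)
    (hr : ∀ P ∈ S, {c : K[X] | c.degree < P.degree ∧ Rt P c}.ncard = r P) :
    (cls Rt S).ncard = ∏ P ∈ S, r P := by
  induction S using Finset.induction_on with
  | empty =>
    rw [prod_empty]
    have h1 : cls Rt (∅ : Finset K[X]) = {0} := by
      ext u
      constructor
      · rintro ⟨hu, -⟩
        rw [prod_empty] at hu
        have h2 : (1 : K[X]) ∣ u - 0 := one_dvd _
        exact eq_of_deg hu (by rw [degree_zero, degree_one]; exact WithBot.bot_lt_coe 0) h2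
      · intro hu
        rw [Set.mem_singleton_iff] at hu
        rw [hu]
        refine ⟨?_, fun P hP => absurd hP (notMem_empty P)⟩
        rw [prod_empty, degree_zero, degree_one]
        exact WithBot.bot_lt_coe 0
    rw [h1, Set.ncard_singleton]
  | insert P S hPS ih =>
    have hS' : ∀ P' ∈ S, P'.Monic ∧ Irreducible P' := fun P' h => hS P' (mem_insert_of_mem h)
    obtain ⟨hPm, hPi⟩ := hS P (mem_insert_self P S)
    rw [prod_insert hPS, ← ih hS' fun P' h => hr P' (mem_insert_of_mem h),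
      ← hr P (mem_insert_self P S), ← Set.ncard_prod]
    have hQm := prod_monic hS'
    have hcop : IsCoprime P (∏ P ∈ S, P) := by
      apply coprime_of_disjoint hPi.ne_zero
      rw [PA_prod hS', Set.disjoint_left]
      rintro P' ⟨h1, h2, h3⟩ h4
      have h5 : Associated P' P := h2.associated_of_dvd hPi h3
      rw [eq_of_monic_of_associated h1 hPm h5] at h4
      exact hPS h4
    have hdP : ∀ u : K[X], (u %ₘ P).degree < P.degree := fun u => degree_modByMonic_lt u hPm
    have hdQ : ∀ u : K[X], (u %ₘ (∏ P ∈ S, P)).degree < (∏ P ∈ S, P).degree :=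
      fun u => degree_modByMonic_lt u hQm
    refine Set.ncard_congr (fun u _ => (u %ₘ P, u %ₘ (∏ P ∈ S, P))) ?_ ?_ ?_
    · rintro u ⟨hu, hR⟩
      refine Set.mk_mem_prod ⟨hdP u, ?_⟩ ⟨hdQ u, fun P' hP' => ?_⟩
      · exact (Rt_congr per (dvd_sub_mod u P)).1 (hR P (mem_insert_self P S))
      · exact (Rt_congr per ((dvd_prod_of_mem (fun P => P) hP').trans (dvd_sub_mod u _))).1
          (hR P' (mem_insert_of_mem hP'))
    · rintro u v ⟨hu, -⟩ ⟨hv, -⟩ h
      rw [Prod.mk.injEq] at h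
      apply eq_of_deg hu hv
      rw [prod_insert hPS]
      apply hcop.mul_dvd
      · have h1 := dvd_sub (dvd_sub_mod u P) (dvd_sub_mod v P)
        rw [h.1] at h1
        rwa [sub_sub_sub_cancel_right] at h1
      · have h1 := dvd_sub (dvd_sub_mod u (∏ P ∈ S, P)) (dvd_sub_mod v (∏ P ∈ S, P))
        rw [h.2] at h1
        rwa [sub_sub_sub_cancel_right] at h1
    · rintro ⟨c, v⟩ ⟨⟨hc1, hc2⟩, ⟨hv1, hv2⟩⟩
      simp only at hc1 hc2 hv1 hv2
      obtain ⟨y, hy1, hy2⟩ := crt2 hcop c v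
      have hm : (P * ∏ P ∈ S, P).Monic := hPm.mul hQm
      have h1 := dvd_sub_mod y (P * ∏ P ∈ S, P)
      have h2 : P ∣ y %ₘ (P * ∏ P ∈ S, P) - c := by
        have h3 := dvd_sub hy1 ((dvd_mul_right P _).trans h1)
        rwa [sub_sub_sub_cancel_left] at h3
      have h4 : (∏ P ∈ S, P) ∣ y %ₘ (P * ∏ P ∈ S, P) - v := by
        have h3 := dvd_sub hy2 ((dvd_mul_left _ P).trans h1)
        rwa [sub_sub_sub_cancel_left] at h3
      refine ⟨y %ₘ (P * ∏ P ∈ S, P), ⟨?_, ?_⟩, ?_⟩
      · rw [prod_insert hPS]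
        exact degree_modByMonic_lt y hm
      · intro P' hP'
        rcases mem_insert.1 hP' with h | h
        · rw [h]
          exact (Rt_congr per h2).2 hc2
        · exact (Rt_congr per ((dvd_prod_of_mem _ h).trans h4)).2 (hv2 P' h)
      · refine Prod.ext ?_ ?_
        · refine (eq_of_deg hc1 (hdP _) ?_).symm
          have h5 := dvd_sub (dvd_sub_mod (y %ₘ (P * ∏ P ∈ S, P)) P) h2
          rwa [sub_sub_sub_cancel_left] at h5
        · refine (eq_of_deg hv1 (hdQ _) ?_).symm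
          have h5 := dvd_sub (dvd_sub_mod (y %ₘ (P * ∏ P ∈ S, P)) (∏ P ∈ S, P)) h4
          rwa [sub_sub_sub_cancel_left] at h5

end algebra

/-- EXP -/
theorem expw : S_exp := by
  intro K _ _ M Rt r κ hM hL a₀ d z D B V ι I E c φ hMz hRW
  have hPS : ∀ S ⊆ PS K M z, ∀ P ∈ S, P.Monic ∧ Irreducible P ∧ P.natDegree ≤ z ∧ ¬ P ∣ M := by
    intro S hS P hP
    have h1 := mem_filter.1 (hS hP)
    have h2 := mem_PU.1 h1.1
    exact ⟨h2.1, h2.2.1, h2.2.2, h1.2⟩
  have hmi : ∀ S ⊆ PS K M z, ∀ P ∈ S, P.Monic ∧ Irreducible P :=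
    fun S hS P hP => ⟨(hPS S hS P hP).1, (hPS S hS P hP).2.1⟩
  have hd1 : ∀ x ∈ I, Disjoint (PA M) (PA (E x)) := by
    intro x hx
    rw [Set.disjoint_left]
    rintro P ⟨h1, h2, h3⟩ h4
    have h5 := natDegree_le_of_dvd h3 hM.ne_zero
    have h6 := hRW.rough x hx P h4
    omega
  have hd2 : ∀ x ∈ I, ∀ S ⊆ PS K M z, Disjoint (PA M ∪ PA (E x)) (S : Set K[X]) := by
    intro x hx S hS
    rw [Set.disjoint_left]
    rintro P (h | h) hP
    · exact (hPS S hS P hP).2.2.2 h.2.2
    · have h5 := (hPS S hS P hP).2.2.1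
      have h6 := hRW.rough x hx P h
      omega
  have hc1 : ∀ x ∈ I, IsCoprime M (E x) := fun x hx => coprime_of_disjoint hM.ne_zero (hd1 x hx)
  have hc2 : ∀ x ∈ I, ∀ S ⊆ PS K M z, IsCoprime (M * E x) (∏ P ∈ S, P) := by
    intro x hx S hS
    apply coprime_of_disjoint (hM.mul (hRW.mon x hx)).ne_zero
    rw [PA_mul, PA_prod (hmi S hS)]
    exact hd2 x hx S hS
  refine ⟨?_, ?_, ?_⟩
  · intro G
    -- the inner sum
    have hin : ∀ x ∈ I, ∀ S ∈ (PS K M z).powerset, ∑ᶠ u ∈ cls Rt S,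
        ∑ a ∈ Ac K d (M * E x * ∏ P ∈ S, P) (crt M a₀ (E x) (c x) (∏ P ∈ S, P) u), G a =
        ∑ a ∈ Ac K d M a₀, if E x ∣ a - c x ∧ ∀ P ∈ S, Rt P a then G a else 0 := by
      intro x hx S hS
      rw [mem_powerset] at hS
      have hfin : (cls Rt S).Finite := finite_cls Rt S
      rw [finsum_mem_eq_finite_toFinset_sum _ hfin]
      unfold Ac
      simp only [sum_filter]
      rw [sum_comm]
      refine sum_congr rfl fun a _ => ?_
      simp only [dvd_crt (hc1 x hx) (hc2 x hx S hS)]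
      have hQm := prod_monic (hmi S hS)
      by_cases h1 : M ∣ a - a₀
      · rw [if_pos h1]
        by_cases h2 : E x ∣ a - c x ∧ ∀ P ∈ S, Rt P a
        · rw [if_pos h2, sum_eq_single (a %ₘ ∏ P ∈ S, P)]
          · rw [if_pos ⟨h1, h2.1, dvd_sub_mod a _⟩]
          · intro u hu hne
            rw [if_neg]
            rintro ⟨-, -, h3⟩
            apply hne
            have hu' := (Set.Finite.mem_toFinset hfin).1 hu
            apply eq_of_deg hu'.1 (degree_modByMonic_lt a hQm)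
            have h4 := dvd_sub (dvd_sub_mod a (∏ P ∈ S, P)) h3
            rwa [sub_sub_sub_cancel_left] at h4
          · intro hu
            exfalso
            apply hu
            rw [Set.Finite.mem_toFinset]
            exact ⟨degree_modByMonic_lt a hQm, fun P hP =>
              (Rt_congr hL.per ((dvd_prod_of_mem (fun P => P) hP).trans (dvd_sub_mod a _))).1 (h2.2 P hP)⟩
        · rw [if_neg h2]
          refine sum_eq_zero fun u hu => ?_
          rw [if_neg]
          rintro ⟨-, h3, h4⟩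
          have hu' := (Set.Finite.mem_toFinset hfin).1 hu
          exact h2 ⟨h3, fun P hP =>
            (Rt_congr hL.per ((dvd_prod_of_mem _ hP).trans h4)).2 (hu'.2 P hP)⟩
      · rw [if_neg h1]
        exact sum_eq_zero fun u _ => if_neg fun h => h1 h.1
    have hsw : ∀ a, sw M Rt z V a =
        ∑ S ∈ (PS K M z).powerset, if ∀ P ∈ S, Rt P a then V S else 0 := by
      intro a
      unfold sw
      rw [← sum_filter]
      refine sum_congr ?_ fun _ _ => rfl
      ext S
      simp only [mem_powerset, mem_filter, subset_iff]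
      exact ⟨fun h => ⟨fun P hP => (h hP).1, fun P hP => (h hP).2⟩,
        fun h P hP => ⟨h.1 hP, h.2 P hP⟩⟩
    have hrw : ∀ a, rwt I E c φ a = ∑ x ∈ I, if E x ∣ a - c x then φ x else 0 := by
      intro a
      unfold rwt
      rw [sum_filter]
    have hL1 : ∀ a, G a * (sw M Rt z V a * rwt I E c φ a) =
        ∑ x ∈ I, ∑ S ∈ (PS K M z).powerset,
          φ x * (V S * if E x ∣ a - c x ∧ ∀ P ∈ S, Rt P a then G a else 0) := by
      intro a
      rw [hsw, hrw, sum_mul_sum, mul_sum]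
      simp only [mul_sum]
      rw [sum_comm]
      refine sum_congr rfl fun x _ => sum_congr rfl fun S _ => ?_
      by_cases h1 : E x ∣ a - c x
      · by_cases h2 : ∀ P ∈ S, Rt P a
        · rw [if_pos h1, if_pos h2, if_pos ⟨h1, h2⟩]
          ring
        · rw [if_neg h2, if_neg (fun h : E x ∣ a - c x ∧ ∀ P ∈ S, Rt P a => h2 h.2)]
          ring
      · rw [if_neg h1, if_neg (fun h : E x ∣ a - c x ∧ ∀ P ∈ S, Rt P a => h1 h.1)]
        ring
    rw [sum_congr rfl fun a _ => hL1 a, sum_comm]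
    refine sum_congr rfl fun x hx => ?_
    rw [sum_comm, mul_sum]
    refine sum_congr rfl fun S hS => ?_
    rw [hin x hx S hS, mul_sum, mul_sum]
  · intro S hS
    exact ⟨finite_cls Rt S, cls_card hL.per r S (hmi S hS) fun P hP =>
      hL.num P (hmi S hS P hP).1 (hmi S hS P hP).2 (hPS S hS P hP).2.2.2⟩
  · intro x hx S hS u
    obtain ⟨h1, h2, h3⟩ := crt_spec (hc1 x hx) (hc2 x hx S hS) a₀ (c x) u
    exact ⟨h1, h2, h3, by rw [PA_mul, PA_mul, PA_prod (hmi S hS)], hd1 x hx, hd2 x hx S hS⟩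

end Pool.Agent.H524.MT.Exp
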