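import Pool.Agent.H604.MT.StmV

/-!
# Mertens' theorem and the sum over the rough polynomials (task MERT)
-/

set_option autoImplicit false
set_option linter.all false

namespace Pool.Agent.H524.MT

open Polynomial
open scoped Classical
open Pool.Agent.H985.KP (PA)
open Pool.Agent.H694.Typ (Mn PU Irn mem_Mn card_Mn mem_PU mem_Irn irn_one_le coprime_of_ne)

namespace MertL

variable {K : Type} [Field K] [Fintype K]

/-- the weight `1 / |f|` -/
noncomputable def w (f : K[X]) : ℝ := 1 / (Fintype.card K : ℝ) ^ f.natDegree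

theorem two_le_q : (2 : ℝ) ≤ (Fintype.card K : ℝ) := by
  exact_mod_cast (Fintype.one_lt_card (α := K))

theorem w_pos (f : K[X]) : 0 < w f := by
  have := two_le_q (K := K)
  unfold w
  positivity

theorem w_one : w (1 : K[X]) = 1 := by
  unfold w
  rw [natDegree_one, pow_zero, div_one]

theorem w_mul {f g : K[X]} (hf : f.Monic) (hg : g.Monic) : w (f * g) = w f * w g := by
  unfold w
  rw [hf.natDegree_mul hg, pow_add, one_div_mul_one_div]

theorem w_pow {f : K[X]} (hf : f.Monic) (v : ℕ) : w (f ^ v) = w f ^ v := by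
  unfold w
  rw [hf.natDegree_pow, one_div_pow, ← pow_mul, mul_comm]

theorem w_le_half {P : K[X]} (hP : Irreducible P) : w P ≤ 1 / 2 := by
  have hq := two_le_q (K := K)
  unfold w
  apply one_div_le_one_div_of_le (by norm_num)
  calc (2 : ℝ) ≤ (Fintype.card K : ℝ) := hq
    _ = (Fintype.card K : ℝ) ^ 1 := (pow_one _).symm
    _ ≤ _ := pow_le_pow_right₀ (by linarith) hP.natDegree_pos

theorem w_prod {S : Finset K[X]} (hS : ∀ P ∈ S, P.Monic) : w (∏ P ∈ S, P) = ∏ P ∈ S, w P := by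
  induction S using Finset.induction_on with
  | empty => rw [Finset.prod_empty, Finset.prod_empty, w_one]
  | insert a s ha ih =>
    rw [Finset.prod_insert ha, Finset.prod_insert ha, w_mul (hS a (Finset.mem_insert_self _ _))
      (monic_prod_of_monic _ _ fun P hP => hS P (Finset.mem_insert_of_mem hP)),
      ih fun P hP => hS P (Finset.mem_insert_of_mem hP)]

theorem geom_le {x : ℝ} (h0 : 0 ≤ x) (h1 : x < 1) (n : ℕ) :
    ∑ v ∈ Finset.range n, x ^ v ≤ (1 - x)⁻¹ := by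
  have h2 : (1 - x) * ∑ v ∈ Finset.range n, x ^ v = 1 - x ^ n := mul_neg_geom_sum x n
  have h3 : 0 < 1 - x := by linarith
  have h4 : 0 ≤ x ^ n := pow_nonneg h0 n
  rw [inv_eq_one_div, le_div_iff₀ h3, mul_comm, h2]
  linarith

/-- the sum of the weights of monic polynomials with all prime factors in `S` -/
theorem key (S : Finset K[X]) (hS : ∀ P ∈ S, P.Monic ∧ Irreducible P) :
    ∀ N : Finset K[X], (∀ n ∈ N, n.Monic ∧ ∀ P : K[X], P.Monic → Irreducible P → P ∣ n → P ∈ S) →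
      ∑ n ∈ N, w n ≤ ∏ P ∈ S, (1 - w P)⁻¹ := by
  induction S using Finset.induction_on with
  | empty =>
    intro N hN
    rw [Finset.prod_empty]
    have h1 : N ⊆ {1} := by
      intro n hn
      rw [Finset.mem_singleton]
      obtain ⟨h2, h3⟩ := hN n hn
      by_contra hne
      have h4 : ¬ IsUnit n := fun hu => hne (h2.eq_one_of_isUnit hu)
      obtain ⟨P, hP1, hP2, hP3⟩ := exists_monic_irreducible_factor n h4
      exact absurd (h3 P hP1 hP2 hP3) (Finset.notMem_empty P)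
    calc ∑ n ∈ N, w n ≤ ∑ n ∈ ({1} : Finset K[X]), w n :=
          Finset.sum_le_sum_of_subset_of_nonneg h1 fun n _ _ => (w_pos n).le
      _ = 1 := by rw [Finset.sum_singleton, w_one]
  | insert P s hPs ih =>
    intro N hN
    have hPm := (hS P (Finset.mem_insert_self _ _)).1
    have hPi := (hS P (Finset.mem_insert_self _ _)).2
    have hs := ih fun Q hQ => hS Q (Finset.mem_insert_of_mem hQ)
    have hfin : ∀ n ∈ N, FiniteMultiplicity P n := fun n hn =>
      FiniteMultiplicity.of_not_isUnit hPi.not_isUnit (hN n hn).1.ne_zero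
    set V := N.sup (fun n => multiplicity P n) with hV
    have h1 : ∑ n ∈ N, w n = ∑ v ∈ Finset.range (V + 1),
        ∑ n ∈ N.filter (fun n => multiplicity P n = v), w n := by
      rw [Finset.sum_fiberwise_of_maps_to]
      intro n hn
      rw [Finset.mem_range]
      have := Finset.le_sup (f := fun n => multiplicity P n) hn
      exact Nat.lt_succ_of_le this
    have h2 : ∀ v : ℕ, ∑ n ∈ N.filter (fun n => multiplicity P n = v), w n ≤
        w P ^ v * ∏ Q ∈ s, (1 - w Q)⁻¹ := by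
      intro v
      have h3 : ∀ n ∈ N.filter (fun n => multiplicity P n = v), n = P ^ v * (n /ₘ P ^ v) ∧
          ¬ P ∣ n /ₘ P ^ v := by
        intro n hn
        rw [Finset.mem_filter] at hn
        obtain ⟨c, hc, hc2⟩ := (hfin n hn.1).exists_eq_pow_mul_and_not_dvd
        rw [hn.2] at hc
        have h5 : n /ₘ P ^ v = c := by
          rw [hc]
          exact mul_divByMonic_cancel_left c (hPm.pow v)
        rw [h5]
        exact ⟨hc, hc2⟩
      have h4 : ∀ n ∈ N.filter (fun n => multiplicity P n = v), (n /ₘ P ^ v).Monic := by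
        intro n hn
        have h5 : (P ^ v * (n /ₘ P ^ v)).Monic := by
          rw [← (h3 n hn).1]
          exact (hN n (Finset.mem_filter.1 hn).1).1
        exact (hPm.pow v).of_mul_monic_left h5
      have h5 : ∑ n ∈ N.filter (fun n => multiplicity P n = v), w n =
          w P ^ v * ∑ m ∈ (N.filter (fun n => multiplicity P n = v)).image (fun n => n /ₘ P ^ v),
            w m := by
        rw [Finset.sum_image, Finset.mul_sum]
        · refine Finset.sum_congr rfl fun n hn => ?_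
          rw [← w_pow hPm, ← w_mul (hPm.pow v) (h4 n hn), ← (h3 n hn).1]
        · intro a ha b hb hab
          rw [(h3 a ha).1, (h3 b hb).1]
          simp only at hab
          rw [hab]
      rw [h5]
      refine mul_le_mul_of_nonneg_left (hs _ ?_) (pow_nonneg (w_pos P).le v)
      intro m hm
      rw [Finset.mem_image] at hm
      obtain ⟨n, hn, rfl⟩ := hm
      refine ⟨h4 n hn, fun Q hQ1 hQ2 hQ3 => ?_⟩
      have h6 : Q ∣ n := by
        rw [(h3 n hn).1]
        exact Dvd.dvd.mul_left hQ3 _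
      have h7 := (hN n (Finset.mem_filter.1 hn).1).2 Q hQ1 hQ2 h6
      rw [Finset.mem_insert] at h7
      rcases h7 with h7 | h7
      · exfalso
        rw [h7] at hQ3
        exact (h3 n hn).2 hQ3
      · exact h7
    have hwP := w_le_half hPi
    have hpr : 0 ≤ ∏ Q ∈ s, (1 - w Q)⁻¹ := by
      refine Finset.prod_nonneg fun Q hQ => inv_nonneg.2 ?_
      have := w_le_half (hS Q (Finset.mem_insert_of_mem hQ)).2
      linarith
    rw [h1, Finset.prod_insert hPs]
    calc ∑ v ∈ Finset.range (V + 1), ∑ n ∈ N.filter (fun n => multiplicity P n = v), w n ≤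
        ∑ v ∈ Finset.range (V + 1), w P ^ v * ∏ Q ∈ s, (1 - w Q)⁻¹ :=
          Finset.sum_le_sum fun v _ => h2 v
      _ = (∑ v ∈ Finset.range (V + 1), w P ^ v) * ∏ Q ∈ s, (1 - w Q)⁻¹ := by
          rw [Finset.sum_mul]
      _ ≤ (1 - w P)⁻¹ * ∏ Q ∈ s, (1 - w Q)⁻¹ :=
          mul_le_mul_of_nonneg_right (geom_le (w_pos P).le (by linarith) _) hpr

/-- the monic polynomials of degree at most `T` -/
noncomputable def Nt (K : Type) [Field K] [Fintype K] (T : ℕ) : Finset K[X] :=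
  (Finset.range (T + 1)).biUnion (fun j => Mn K j)

theorem mem_Nt {T : ℕ} {f : K[X]} : f ∈ Nt K T ↔ f.Monic ∧ f.natDegree ≤ T := by
  unfold Nt
  rw [Finset.mem_biUnion]
  constructor
  · rintro ⟨j, hj, hf⟩
    rw [mem_Mn] at hf
    rw [Finset.mem_range] at hj
    exact ⟨hf.1, by omega⟩
  · rintro ⟨h1, h2⟩
    exact ⟨f.natDegree, Finset.mem_range.2 (by omega), mem_Mn.2 ⟨h1, rfl⟩⟩

theorem sum_Nt (T : ℕ) : ∑ n ∈ Nt K T, w n = (T : ℝ) + 1 := by
  unfold Nt
  rw [Finset.sum_biUnion]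
  · have h1 : ∀ j ∈ Finset.range (T + 1), ∑ n ∈ Mn K j, w n = 1 := by
      intro j _
      have h2 : ∀ n ∈ Mn K j, w n = 1 / (Fintype.card K : ℝ) ^ j := by
        intro n hn
        unfold w
        rw [(mem_Mn.1 hn).2]
      rw [Finset.sum_congr rfl h2, Finset.sum_const, card_Mn, nsmul_eq_mul]
      have hq := two_le_q (K := K)
      rw [Nat.cast_pow, mul_one_div, div_self (by positivity)]
    rw [Finset.sum_congr rfl h1, Finset.sum_const, Finset.card_range, nsmul_eq_mul, mul_one]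
    push_cast
    ring
  · intro a _ b _ hab
    rw [Function.onFun, Finset.disjoint_left]
    intro P hP hP'
    exact hab ((mem_Mn.1 hP).2.symm.trans (mem_Mn.1 hP').2)

/-! ### Products of distinct primes -/

theorem pr_monic {S : Finset K[X]} (hS : ∀ P ∈ S, P.Monic ∧ Irreducible P) :
    (∏ P ∈ S, P).Monic := monic_prod_of_monic _ _ fun P hP => (hS P hP).1

theorem dvd_pr {S : Finset K[X]} (hS : ∀ P ∈ S, P.Monic ∧ Irreducible P) {Q : K[X]}
    (hQ : Q.Monic) (hQ' : Irreducible Q) : Q ∣ ∏ P ∈ S, P ↔ Q ∈ S := by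
  constructor
  · intro h
    rw [hQ'.prime.dvd_finsetProd_iff] at h
    obtain ⟨P, hP, h1⟩ := h
    have h2 : Q = P := eq_of_monic_of_associated hQ (hS P hP).1
      (hQ'.associated_of_dvd (hS P hP).2 h1)
    rw [h2]
    exact hP
  · intro h
    exact Finset.dvd_prod_of_mem _ h

theorem pr_sq {S : Finset K[X]} (hS : ∀ P ∈ S, P.Monic ∧ Irreducible P) :
    Squarefree (∏ P ∈ S, P) := by
  apply Finset.squarefree_prod_of_pairwise_isCoprime
  · intro P hP Q hQ hne
    exact (coprime_of_ne (hS P hP).1 (hS P hP).2 (hS Q hQ).1 (hS Q hQ).2 hne).isRelPrime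
  · intro P hP
    exact (hS P hP).2.squarefree

theorem pr_dvd {S : Finset K[X]} (hS : ∀ P ∈ S, P.Monic ∧ Irreducible P) {n : K[X]}
    (hn : ∀ P ∈ S, P ∣ n) : ∏ P ∈ S, P ∣ n := by
  apply Finset.prod_dvd_of_coprime
  · intro P hP Q hQ hne
    exact coprime_of_ne (hS P hP).1 (hS P hP).2 (hS Q hQ).1 (hS Q hQ).2 hne
  · intro P hP
    exact hn P hP

theorem PA_pr {S : Finset K[X]} (hS : ∀ P ∈ S, P.Monic ∧ Irreducible P) :
    PA (∏ P ∈ S, P) = (S : Set K[X]) := by
  ext Q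
  constructor
  · rintro ⟨h1, h2, h3⟩
    exact (dvd_pr hS h1 h2).1 h3
  · intro h
    have h1 : Q ∈ S := h
    exact ⟨(hS Q h1).1, (hS Q h1).2, (dvd_pr hS (hS Q h1).1 (hS Q h1).2).2 h1⟩

theorem ph_pr {S : Finset K[X]} (hS : ∀ P ∈ S, P.Monic ∧ Irreducible P) :
    ph (∏ P ∈ S, P) = ∏ P ∈ S, ((Fintype.card K : ℝ) ^ P.natDegree - 1) := by
  unfold ph
  rw [PA_pr hS]
  exact finprod_mem_coe_finset _ _

/-- the prime factors of `r` -/
noncomputable def Af (T : ℕ) (r : K[X]) : Finset K[X] := (PU K T).filter (fun P => P ∣ r)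

theorem Af_ok (T : ℕ) (r : K[X]) : ∀ P ∈ Af T r, P.Monic ∧ Irreducible P := by
  intro P hP
  unfold Af at hP
  rw [Finset.mem_filter, mem_PU] at hP
  exact ⟨hP.1.1, hP.1.2.1⟩

/-- a squarefree polynomial is the product of its prime factors -/
theorem pr_Af {T : ℕ} {r : K[X]} (hr : r.Monic) (hsq : Squarefree r) (hT : r.natDegree ≤ T) :
    ∏ P ∈ Af T r, P = r := by
  have h1 : ∏ P ∈ Af T r, P ∣ r := by
    apply pr_dvd (Af_ok T r)
    intro P hP
    exact (Finset.mem_filter.1 hP).2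
  obtain ⟨m, hm⟩ := h1
  have h2 := pr_monic (Af_ok T r)
  have h3 : m.Monic := by
    apply h2.of_mul_monic_left
    rw [← hm]
    exact hr
  by_cases h4 : IsUnit m
  · rw [h3.eq_one_of_isUnit h4, mul_one] at hm
    exact hm.symm
  · exfalso
    obtain ⟨Q, hQ1, hQ2, hQ3⟩ := exists_monic_irreducible_factor m h4
    have h5 : Q ∣ r := by
      rw [hm]
      exact Dvd.dvd.mul_left hQ3 _
    have h6 : Q ∈ Af T r := by
      unfold Af
      rw [Finset.mem_filter, mem_PU]
      exact ⟨⟨hQ1, hQ2, (natDegree_le_of_dvd h5 hr.ne_zero).trans hT⟩, h5⟩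
    have h7 : Q ∣ ∏ P ∈ Af T r, P := (dvd_pr (Af_ok T r) hQ1 hQ2).2 h6
    have h8 : Q * Q ∣ r := by
      rw [hm]
      exact mul_dvd_mul h7 hQ3
    exact hQ2.not_isUnit (hsq Q h8)

/-- the product over the primes of degree at most `z` -/
noncomputable def Me (K : Type) [Field K] [Fintype K] (z : ℕ) : ℝ := ∏ P ∈ PU K z, (1 - w P)⁻¹

theorem inv_pos' {P : K[X]} (hP : Irreducible P) : 0 < (1 - w P)⁻¹ := by
  have := w_le_half hP
  exact inv_pos.2 (by linarith)

theorem one_le_inv {P : K[X]} (hP : Irreducible P) : 1 ≤ (1 - w P)⁻¹ := by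
  have := w_le_half hP
  have := w_pos P
  rw [one_le_inv₀ (by linarith)]
  linarith

theorem Me_lower (z : ℕ) : (z : ℝ) + 1 ≤ Me K z := by
  rw [← sum_Nt (K := K) z]
  unfold Me
  apply key
  · intro P hP
    rw [mem_PU] at hP
    exact ⟨hP.1, hP.2.1⟩
  · intro n hn
    rw [mem_Nt] at hn
    refine ⟨hn.1, fun P h1 h2 h3 => ?_⟩
    rw [mem_PU]
    exact ⟨h1, h2, (natDegree_le_of_dvd h3 hn.1.ne_zero).trans hn.2⟩

theorem Me_pos (z : ℕ) : 0 < Me K z := by
  have := Me_lower (K := K) z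
  have h : (0 : ℝ) ≤ z := Nat.cast_nonneg z
  linarith

theorem inv_le_exp {x : ℝ} (h0 : 0 ≤ x) (h1 : x ≤ 1 / 2) : (1 - x)⁻¹ ≤ Real.exp (x + 2 * x ^ 2) := by
  have h2 : (1 - x)⁻¹ ≤ x + 2 * x ^ 2 + 1 := by
    rw [inv_eq_one_div, div_le_iff₀ (by linarith)]
    nlinarith [mul_nonneg h0 h0, mul_nonneg (mul_nonneg h0 h0) (by linarith : (0 : ℝ) ≤ 1 / 2 - x)]
  exact h2.trans (Real.add_one_le_exp _)

theorem Me_upper {z : ℕ} (hz : 1 ≤ z) : Me K z ≤ Real.exp 3 * z := by
  have hq := two_le_q (K := K)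
  have h1 : Me K z ≤ Real.exp (∑ P ∈ PU K z, (w P + 2 * w P ^ 2)) := by
    unfold Me
    rw [Real.exp_sum]
    refine Finset.prod_le_prod (fun P hP => ?_) fun P hP => ?_
    · exact (inv_pos' (mem_PU.1 hP).2.1).le
    · exact inv_le_exp (w_pos P).le (w_le_half (mem_PU.1 hP).2.1)
  have h2 : ∑ P ∈ PU K z, (w P + 2 * w P ^ 2) ≤ ∑ j ∈ Finset.Icc 1 z, ((j : ℝ)⁻¹ + 2 * (1 / 2) ^ j) := by
    rw [Pool.Agent.H694.Typ.sum_PU]
    refine Finset.sum_le_sum fun j hj => ?_
    rw [Finset.mem_Icc] at hj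
    have h3 : ∀ P ∈ Irn K j, w P + 2 * w P ^ 2 =
        1 / (Fintype.card K : ℝ) ^ j + 2 * (1 / (Fintype.card K : ℝ) ^ j) ^ 2 := by
      intro P hP
      unfold w
      rw [(mem_Irn.1 hP).2.1]
    rw [Finset.sum_congr rfl h3, Finset.sum_const, nsmul_eq_mul]
    have h4 : (j : ℝ) * (Irn K j).card ≤ (Fintype.card K : ℝ) ^ j := by
      exact_mod_cast irn_one_le (k := K) (d := j) (by omega)
    have hj0 : (1 : ℝ) ≤ j := by exact_mod_cast hj.1
    have hpos : (0 : ℝ) < (Fintype.card K : ℝ) ^ j := by positivity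
    have h5 : ((Irn K j).card : ℝ) ≤ (Fintype.card K : ℝ) ^ j * (j : ℝ)⁻¹ := by
      rw [← div_eq_mul_inv, le_div_iff₀ (by linarith)]
      linarith
    have h6 : 1 / (Fintype.card K : ℝ) ^ j ≤ (1 / 2) ^ j := by
      rw [one_div_pow]
      exact one_div_le_one_div_of_le (by positivity) (pow_le_pow_left₀ (by norm_num) hq j)
    have h7 : (j : ℝ)⁻¹ ≤ 1 := inv_le_one_of_one_le₀ hj0
    have h8 : 0 ≤ (j : ℝ)⁻¹ := by positivity
    set Y := (Fintype.card K : ℝ) ^ j with hY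
    calc ((Irn K j).card : ℝ) * (1 / Y + 2 * (1 / Y) ^ 2) ≤
        (Y * (j : ℝ)⁻¹) * (1 / Y + 2 * (1 / Y) ^ 2) :=
          mul_le_mul_of_nonneg_right h5 (by positivity)
      _ = (j : ℝ)⁻¹ + 2 * ((j : ℝ)⁻¹ * (1 / Y)) := by
          field_simp
      _ ≤ (j : ℝ)⁻¹ + 2 * (1 * (1 / 2) ^ j) := by
          have := mul_le_mul h7 h6 (by positivity) (by norm_num)
          linarith
      _ = _ := by rw [one_mul]
  have h3 : ∑ j ∈ Finset.Icc 1 z, (1 / 2 : ℝ) ^ j ≤ 1 := by
    have := Pool.Agent.H694.Typ.geo_half_le 0 z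
    simpa using this
  have h4 : ∑ j ∈ Finset.Icc 1 z, (j : ℝ)⁻¹ ≤ 1 + Real.log z := by
    have h5 := harmonic_le_one_add_log z
    rw [harmonic_eq_sum_Icc] at h5
    push_cast at h5
    exact h5
  have h5 : ∑ P ∈ PU K z, (w P + 2 * w P ^ 2) ≤ 3 + Real.log z := by
    refine h2.trans ?_
    rw [Finset.sum_add_distrib, ← Finset.mul_sum]
    linarith
  have hz0 : (0 : ℝ) < z := by exact_mod_cast hz
  calc Me K z ≤ Real.exp (∑ P ∈ PU K z, (w P + 2 * w P ^ 2)) := h1
    _ ≤ Real.exp (3 + Real.log z) := Real.exp_le_exp.2 h5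
    _ = Real.exp 3 * z := by rw [Real.exp_add, Real.exp_log hz0]

theorem Me_split {z T : ℕ} (hzT : z ≤ T) :
    Me K T = Me K z * ∏ P ∈ (PU K T).filter (fun P => z < P.natDegree), (1 - w P)⁻¹ := by
  unfold Me
  rw [← Finset.prod_filter_mul_prod_filter_not (PU K T) (fun P => z < P.natDegree), mul_comm]
  congr 1
  apply Finset.prod_congr _ fun _ _ => rfl
  ext P
  rw [Finset.mem_filter, mem_PU, mem_PU]
  constructor
  · rintro ⟨⟨h1, h2, h3⟩, h4⟩
    exact ⟨h1, h2, by omega⟩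
  · rintro ⟨h1, h2, h3⟩
    exact ⟨⟨h1, h2, by omega⟩, by omega⟩

/-- `1 + 1 / (|P| - 1) = (1 - 1 / |P|)⁻¹` -/
theorem w_id {P : K[X]} (hP : Irreducible P) :
    w P * (1 - w P)⁻¹ = 1 / ((Fintype.card K : ℝ) ^ P.natDegree - 1) := by
  have hq := two_le_q (K := K)
  have h1 : (2 : ℝ) ≤ (Fintype.card K : ℝ) ^ P.natDegree := by
    calc (2 : ℝ) ≤ (Fintype.card K : ℝ) := hq
      _ = (Fintype.card K : ℝ) ^ 1 := (pow_one _).symm
      _ ≤ _ := pow_le_pow_right₀ (by linarith) hP.natDegree_pos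
  unfold w
  set Y := (Fintype.card K : ℝ) ^ P.natDegree with hY
  have h2 : Y ≠ 0 := by linarith
  have h3 : Y - 1 ≠ 0 := by linarith
  have h4 : 1 - 1 / Y = (Y - 1) / Y := by field_simp
  rw [h4, inv_div]
  field_simp

theorem w_id' {P : K[X]} (hP : Irreducible P) :
    1 + 1 / ((Fintype.card K : ℝ) ^ P.natDegree - 1) = (1 - w P)⁻¹ := by
  rw [← w_id hP]
  have h := w_le_half hP
  have h2 : 1 - w P ≠ 0 := by linarith
  field_simp
  ring

theorem mem_Rz {z T : ℕ} {r : K[X]} : r ∈ Rz K z T ↔ (r.Monic ∧ r.natDegree ≤ T) ∧ Squarefree r ∧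
    ∀ P ∈ PA r, z < P.natDegree := by
  unfold Rz
  rw [Finset.mem_filter]
  have := mem_Nt (K := K) (T := T) (f := r)
  unfold Nt at this
  rw [this]

theorem ph_Rz {z T : ℕ} {r : K[X]} (hr : r ∈ Rz K z T) :
    ph r = ∏ P ∈ Af T r, ((Fintype.card K : ℝ) ^ P.natDegree - 1) := by
  rw [mem_Rz] at hr
  have h := ph_pr (Af_ok T r)
  rw [pr_Af hr.1.1 hr.2.1 hr.1.2] at h
  exact h

theorem ph_pos {z T : ℕ} {r : K[X]} (hr : r ∈ Rz K z T) : 0 < ph r := by
  rw [ph_Rz hr]
  refine Finset.prod_pos fun P hP => ?_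
  have hP := (Af_ok T r P hP).2
  have hq := two_le_q (K := K)
  have h1 : (2 : ℝ) ≤ (Fintype.card K : ℝ) ^ P.natDegree := by
    calc (2 : ℝ) ≤ (Fintype.card K : ℝ) := hq
      _ = (Fintype.card K : ℝ) ^ 1 := (pow_one _).symm
      _ ≤ _ := pow_le_pow_right₀ (by linarith) hP.natDegree_pos
  linarith

theorem Af_sub {z T : ℕ} {r : K[X]} (hr : r ∈ Rz K z T) :
    Af T r ⊆ (PU K T).filter (fun P => z < P.natDegree) := by
  intro P hP
  have h1 := Af_ok T r P hP
  unfold Af at hP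
  rw [Finset.mem_filter] at hP ⊢
  exact ⟨hP.1, (mem_Rz.1 hr).2.2 P ⟨h1.1, h1.2, hP.2⟩⟩

theorem sum_upper (z T : ℕ) : ∑ r ∈ Rz K z T, 1 / ph r ≤
    ∏ P ∈ (PU K T).filter (fun P => z < P.natDegree), (1 - w P)⁻¹ := by
  have h1 : ∏ P ∈ (PU K T).filter (fun P => z < P.natDegree), (1 - w P)⁻¹ =
      ∏ P ∈ (PU K T).filter (fun P => z < P.natDegree),
        (1 + 1 / ((Fintype.card K : ℝ) ^ P.natDegree - 1)) := by
    refine Finset.prod_congr rfl fun P hP => ?_
    rw [Finset.mem_filter, mem_PU] at hP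
    rw [w_id' hP.1.2.1]
  rw [h1, Finset.prod_one_add]
  have h2 : ∑ r ∈ Rz K z T, 1 / ph r = ∑ A ∈ (Rz K z T).image (Af T),
      ∏ P ∈ A, 1 / ((Fintype.card K : ℝ) ^ P.natDegree - 1) := by
    rw [Finset.sum_image]
    · refine Finset.sum_congr rfl fun r hr => ?_
      rw [ph_Rz hr, Finset.prod_div_distrib, Finset.prod_const_one]
    · intro r hr s hs hrs
      have hr := mem_Rz.1 hr
      have hs := mem_Rz.1 hs
      rw [← pr_Af hr.1.1 hr.2.1 hr.1.2, ← pr_Af hs.1.1 hs.2.1 hs.1.2, hrs]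
  rw [h2]
  refine Finset.sum_le_sum_of_subset_of_nonneg ?_ ?_
  · intro A hA
    rw [Finset.mem_image] at hA
    obtain ⟨r, hr, rfl⟩ := hA
    rw [Finset.mem_powerset]
    exact Af_sub hr
  · intro A hA _
    refine Finset.prod_nonneg fun P hP => ?_
    have h3 := Finset.mem_powerset.1 hA hP
    rw [Finset.mem_filter, mem_PU] at h3
    rw [← w_id h3.1.2.1]
    exact mul_nonneg (w_pos P).le (inv_pos' h3.1.2.1).le

/-- the rough part of the radical -/
noncomputable def rr (z T : ℕ) (n : K[X]) : K[X] :=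
  ∏ P ∈ (PU K T).filter (fun P => z < P.natDegree ∧ P ∣ n), P

theorem sum_lower (z T : ℕ) (hzT : z ≤ T) : (T : ℝ) + 1 ≤ Me K z * ∑ r ∈ Rz K z T, 1 / ph r := by
  have hok : ∀ n : K[X], ∀ P ∈ (PU K T).filter (fun P => z < P.natDegree ∧ P ∣ n),
      P.Monic ∧ Irreducible P := by
    intro n P hP
    rw [Finset.mem_filter, mem_PU] at hP
    exact ⟨hP.1.1, hP.1.2.1⟩
  have hdvd : ∀ n : K[X], rr z T n ∣ n := by
    intro n
    apply pr_dvd (hok n)
    intro P hP
    exact (Finset.mem_filter.1 hP).2.2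
  have h1 : ∑ n ∈ Nt K T, w n = ∑ r ∈ Rz K z T, ∑ n ∈ (Nt K T).filter (fun n => rr z T n = r), w n := by
    rw [Finset.sum_fiberwise_of_maps_to]
    intro n hn
    rw [mem_Nt] at hn
    rw [mem_Rz]
    refine ⟨⟨pr_monic (hok n), (natDegree_le_of_dvd (hdvd n) hn.1.ne_zero).trans hn.2⟩,
      pr_sq (hok n), ?_⟩
    intro P hP
    unfold rr at hP
    rw [PA_pr (hok n)] at hP
    exact (Finset.mem_filter.1 hP).2.1
  rw [← sum_Nt (K := K) T, h1, Finset.mul_sum]
  refine Finset.sum_le_sum fun r hr => ?_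
  have hr' := mem_Rz.1 hr
  have hrA := pr_Af hr'.1.1 hr'.2.1 hr'.1.2
  have h3 : ∀ n ∈ (Nt K T).filter (fun n => rr z T n = r), n = r * (n /ₘ r) := by
    intro n hn
    rw [Finset.mem_filter] at hn
    have h4 := hdvd n
    rw [hn.2] at h4
    obtain ⟨c, hc⟩ := h4
    have h5 : n /ₘ r = c := by
      rw [hc]
      exact mul_divByMonic_cancel_left c hr'.1.1
    rw [h5]
    exact hc
  have h4 : ∀ n ∈ (Nt K T).filter (fun n => rr z T n = r), (n /ₘ r).Monic := by
    intro n hn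
    have h5 : (r * (n /ₘ r)).Monic := by
      rw [← h3 n hn]
      exact (mem_Nt.1 (Finset.mem_filter.1 hn).1).1
    exact hr'.1.1.of_mul_monic_left h5
  have h5 : ∑ n ∈ (Nt K T).filter (fun n => rr z T n = r), w n =
      w r * ∑ m ∈ ((Nt K T).filter (fun n => rr z T n = r)).image (fun n => n /ₘ r), w m := by
    rw [Finset.sum_image, Finset.mul_sum]
    · refine Finset.sum_congr rfl fun n hn => ?_
      rw [← w_mul hr'.1.1 (h4 n hn), ← h3 n hn]
    · intro a ha b hb hab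
      rw [h3 a ha, h3 b hb]
      simp only at hab
      rw [hab]
  have h6 : ∑ m ∈ ((Nt K T).filter (fun n => rr z T n = r)).image (fun n => n /ₘ r), w m ≤
      ∏ P ∈ PU K z ∪ Af T r, (1 - w P)⁻¹ := by
    apply key
    · intro P hP
      rw [Finset.mem_union] at hP
      rcases hP with hP | hP
      · rw [mem_PU] at hP
        exact ⟨hP.1, hP.2.1⟩
      · exact Af_ok T r P hP
    · intro m hm
      rw [Finset.mem_image] at hm
      obtain ⟨n, hn, rfl⟩ := hm
      refine ⟨h4 n hn, fun Q hQ1 hQ2 hQ3 => ?_⟩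
      have h7 : Q ∣ n := by
        rw [h3 n hn]
        exact Dvd.dvd.mul_left hQ3 _
      rw [Finset.mem_filter, mem_Nt] at hn
      have h8 := natDegree_le_of_dvd h7 hn.1.1.ne_zero
      rw [Finset.mem_union, mem_PU]
      by_cases h9 : Q.natDegree ≤ z
      · exact Or.inl ⟨hQ1, hQ2, h9⟩
      · right
        unfold Af
        rw [Finset.mem_filter, mem_PU]
        refine ⟨⟨hQ1, hQ2, by omega⟩, ?_⟩
        rw [← hn.2]
        unfold rr
        rw [dvd_pr (hok n) hQ1 hQ2, Finset.mem_filter, mem_PU]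
        exact ⟨⟨hQ1, hQ2, by omega⟩, by omega, h7⟩
  have h7 : ∏ P ∈ PU K z ∪ Af T r, (1 - w P)⁻¹ = Me K z * ∏ P ∈ Af T r, (1 - w P)⁻¹ := by
    unfold Me
    apply Finset.prod_union
    rw [Finset.disjoint_left]
    intro P hP hP'
    have h8 := Af_sub hr hP'
    rw [Finset.mem_filter] at h8
    rw [mem_PU] at hP
    omega
  have h8 : w r * ∏ P ∈ Af T r, (1 - w P)⁻¹ = 1 / ph r := by
    have h9 : w r = ∏ P ∈ Af T r, w P := by
      rw [← w_prod fun P hP => (Af_ok T r P hP).1, hrA]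
    rw [h9, ← Finset.prod_mul_distrib, ph_Rz hr, Finset.prod_congr rfl
      fun P hP => w_id (Af_ok T r P hP).2, Finset.prod_div_distrib, Finset.prod_const_one]
  calc ∑ n ∈ (Nt K T).filter (fun n => rr z T n = r), w n =
      w r * ∑ m ∈ ((Nt K T).filter (fun n => rr z T n = r)).image (fun n => n /ₘ r), w m := h5
    _ ≤ w r * ∏ P ∈ PU K z ∪ Af T r, (1 - w P)⁻¹ := mul_le_mul_of_nonneg_left h6 (w_pos r).le
    _ = Me K z * (w r * ∏ P ∈ Af T r, (1 - w P)⁻¹) := by rw [h7]; ring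
    _ = Me K z * (1 / ph r) := by rw [h8]

end MertL

open MertL in
theorem mert : S_mert := by
  intro K _ _
  refine ⟨Real.exp 3, ?_, ?_, ?_⟩
  · exact Real.one_le_exp (by norm_num)
  · intro z hz
    refine ⟨?_, Me_upper hz⟩
    have h := Me_lower (K := K) z
    have h2 : (z : ℝ) ≤ Me K z := by linarith
    exact h2
  · intro z T hz hzT
    have hz0 : (0 : ℝ) < z := by exact_mod_cast hz
    have hT0 : (0 : ℝ) ≤ T := Nat.cast_nonneg T
    have he : 0 < Real.exp 3 := Real.exp_pos 3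
    have h1 := sum_lower (K := K) z T hzT
    have h2 := Me_upper (K := K) hz
    have h3 := Me_pos (K := K) z
    have h4 : 0 ≤ ∑ r ∈ Rz K z T, 1 / ph r :=
      Finset.sum_nonneg fun r hr => (one_div_pos.2 (ph_pos hr)).le
    constructor
    · rw [div_le_iff₀ (by positivity)]
      calc (T : ℝ) ≤ T + 1 := by linarith
        _ ≤ Me K z * ∑ r ∈ Rz K z T, 1 / ph r := h1
        _ ≤ (Real.exp 3 * z) * ∑ r ∈ Rz K z T, 1 / ph r := mul_le_mul_of_nonneg_right h2 h4
        _ = _ := mul_comm _ _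
    · rw [le_div_iff₀ hz0]
      have h5 := sum_upper (K := K) z T
      have h6 := Me_split (K := K) hzT
      have h7 := Me_upper (K := K) (z := T) (by omega)
      have h8 := Me_lower (K := K) z
      calc (∑ r ∈ Rz K z T, 1 / ph r) * z ≤
          (∏ P ∈ (PU K T).filter (fun P => z < P.natDegree), (1 - w P)⁻¹) * Me K z :=
            mul_le_mul h5 (by linarith) hz0.le (h4.trans h5)
        _ = Me K T := by rw [h6, mul_comm]
        _ ≤ _ := h7

end Pool.Agent.H524.MT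

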